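import Pool.Agent.helper55.ZI.Spec2

set_option autoImplicit false

/-!
Row MNP: the minimal pair of a division corner.
-/

namespace Pool.Agent.helper56.ZI

open Pool.Agent.ZI

universe u

theorem MNP_ann {R : Type u} [Ring R] (c : R) (M : Type u) [AddCommGroup M] [Module R M]
    (x : Fin 1 → M) : (annPP c).Holds M x ↔ c • x 0 = 0 := by
  unfold PP.Holds annPP
  constructor
  · rintro ⟨y, hy⟩
    have := hy 0
    rw [Fin.sum_univ_one] at this
    simpa using this
  · intro h
    refine ⟨fun l => l.elim0, fun i => ?_⟩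
    rw [Fin.sum_univ_one, h]
    simp

theorem MNP (hPPF : PPF_stmt.{u}) (hREG : REG_stmt.{u}) : MNP_stmt.{u} := by
  intro R _ S hS Y f hff hdiv hne
  have fix : ∀ N : ModuleCat.{u} R, ∀ x : Fin 1 → N, (annPP (1 - f)).Holds N x → f • x 0 = x 0 := by
    intro N x hx
    rw [MNP_ann, sub_smul, one_smul, sub_eq_zero] at hx
    exact hx.symm
  refine ⟨?_, ?_⟩
  · obtain ⟨N, hN, x, hx⟩ := hne
    refine ⟨N, hN, fun _ => f • x, ?_, ?_⟩
    · rw [MNP_ann, sub_smul, one_smul, hff N hN x, sub_self]
    · rw [MNP_ann, one_smul]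
      exact hx
  · intro θ h1 h2
    obtain ⟨m, C, hC⟩ := hPPF R S hS 1 θ
    have hC' : ∀ (N : ModuleCat.{u} R) (x : Fin 1 → N),
        θ.Holds N x ↔ ∀ i, C i 0 • x 0 = 0 := by
      intro N x
      rw [hC N x]
      constructor
      · intro h i
        have := h i
        rwa [Fin.sum_univ_one] at this
      · intro h i
        rw [Fin.sum_univ_one]
        exact h i
    by_cases hall : ∀ i, ∀ N : ModuleCat.{u} R, Y N → ∀ x : N, (C i 0 * f) • x = 0
    · right
      intro N hN x hx
      rw [hC']
      intro i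
      have h3 := hall i N hN (x 0)
      rwa [mul_smul, fix N x hx] at h3
    · left
      push Not at hall
      obtain ⟨i, N₀, hN₀, x₀, hx₀⟩ := hall
      obtain ⟨t, ht⟩ := hREG R S hS (C i 0 * f)
      rcases hdiv (t * C i 0) with h | ⟨s, hs⟩
      · exfalso
        apply hx₀
        have h3 := h N₀ hN₀ x₀
        have h4 : C i 0 * f = C i 0 * (f * (t * C i 0) * f) := by
          rw [← mul_assoc, ← mul_assoc, ← mul_assoc]
          rw [← mul_assoc] at ht
          exact ht.symm
        rw [h4, mul_smul, h3, smul_zero]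
      · intro N hN x hx
        have h5 := fix N x (h2 N hN x hx)
        have h6 := (hC' N x).1 hx i
        have h7 := hs N hN (x 0)
        rw [MNP_ann, one_smul]
        rw [h5, mul_smul, mul_smul, h5, mul_smul, mul_smul, h6, smul_zero, smul_zero, smul_zero] at h7
        exact h7.symm

end Pool.Agent.helper56.ZI
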